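import Mathlib

/-!
Determinants with a distinguished first row.
-/

namespace Pool.Agent.H4Abcd

open Submodule Module

universe w

section

variable {N : ℕ}

/-- The square matrix with first row `u` and further rows `v`. -/
def mat {R : Type w} (u : Fin (N + 1) → R) (v : Fin N → Fin (N + 1) → R) :
    Matrix (Fin (N + 1)) (Fin (N + 1)) R := Matrix.of (Fin.cons u v)

theorem mat_zero {R : Type w} (u : Fin (N + 1) → R) (v : Fin N → Fin (N + 1) → R) (i) :
    mat u v 0 i = u i := rfl

theorem mat_succ {R : Type w} (u : Fin (N + 1) → R) (v : Fin N → Fin (N + 1) → R) (j i) :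
    mat u v (Fin.succ j) i = v j i := rfl

theorem exists_coeff {K : Type w} [Field K] {p : ℕ} {V : Type*} [AddCommGroup V] [Module K V]
    (R : Fin p → V) (s : Set (Fin p)) (x : V) (hx : x ∈ span K (R '' s)) :
    ∃ a : Fin p → K, (∀ i, i ∉ s → a i = 0) ∧ x = ∑ i, a i • R i := by
  classical
  refine span_induction (p := fun x _ => ∃ a : Fin p → K, (∀ i, i ∉ s → a i = 0) ∧
    x = ∑ i, a i • R i) ?_ ?_ ?_ ?_ hx
  · rintro _ ⟨i0, hi0, rfl⟩
    refine ⟨Pi.single i0 1, fun i hi => ?_, ?_⟩
    · rw [Pi.single_eq_of_ne]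
      rintro rfl
      exact hi hi0
    · rw [Finset.sum_eq_single i0]
      · simp
      · intro b _ hb
        simp [hb]
      · simp
  · exact ⟨0, fun _ _ => rfl, by simp⟩
  · rintro _ _ _ _ ⟨a, ha, rfl⟩ ⟨b, hb, rfl⟩
    refine ⟨a + b, fun i hi => by simp [ha i hi, hb i hi], ?_⟩
    simp [add_smul, Finset.sum_add_distrib]
  · rintro c _ _ ⟨a, ha, rfl⟩
    refine ⟨c • a, fun i hi => by simp [ha i hi], ?_⟩
    simp [Finset.smul_sum, smul_smul]

/-- Triangular change of rows. -/
theorem det_triangular {K : Type w} [Field K] {p : ℕ} (R R' : Fin p → Fin p → K) (c : Fin p → K)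
    (h : ∀ j, R' j - c j • R j ∈ span K (R '' {i | i < j})) :
    (Matrix.of R').det = (∏ j, c j) * (Matrix.of R).det := by
  classical
  choose a ha1 ha2 using fun j => exists_coeff R _ _ (h j)
  let P : Matrix (Fin p) (Fin p) K := Matrix.of fun j i => (if i = j then c j else 0) + a j i
  have hP : Matrix.of R' = P * Matrix.of R := by
    ext j i
    rw [Matrix.mul_apply]
    have h1 : R' j i = c j * R j i + ∑ l, a j l * R l i := by
      have := congrFun (ha2 j) i
      simp only [Pi.sub_apply, Pi.smul_apply, Finset.sum_apply, smul_eq_mul] at this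
      rw [← this]; ring
    simp only [P, Matrix.of_apply, add_mul, Finset.sum_add_distrib, ite_mul, zero_mul,
      Finset.sum_ite_eq', Finset.mem_univ, if_true]
    exact h1
  rw [hP, Matrix.det_mul]
  congr 1
  rw [Matrix.det_of_isLowerTriangular]
  · refine Finset.prod_congr rfl fun j _ => ?_
    have : a j j = 0 := ha1 j j (by simp)
    simp [P, this]
  · intro j i hij
    have hlt : j < i := hij
    have h1 : a j i = 0 := ha1 j i (by simpa using hlt.le)
    have h2 : i ≠ j := hlt.ne'
    simp [P, h1, h2]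

theorem det_mat_triangular {K : Type w} [Field K] (u : Fin (N + 1) → K)
    (v v' : Fin N → Fin (N + 1) → K) (c : Fin N → K)
    (h : ∀ j, v' j - c j • v j ∈ span K (v '' {i | i < j})) :
    (mat u v').det = (∏ j, c j) * (mat u v).det := by
  have := det_triangular (Fin.cons u v) (Fin.cons u v') (Fin.cons 1 c) (by
    intro j
    refine Fin.cases ?_ (fun j => ?_) j
    · simp
    · rw [Fin.cons_succ, Fin.cons_succ, Fin.cons_succ]
      refine span_mono ?_ (h j)
      rintro _ ⟨i, hi, rfl⟩
      refine ⟨Fin.succ i, ?_, by simp⟩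
      exact Fin.succ_lt_succ_iff.2 hi)
  rw [Fin.prod_univ_succ] at this
  simpa [mat] using this

theorem det_mat_zero_sum {R : Type w} [CommRing R] [IsDomain R] (u : Fin (N + 1) → R)
    (v : Fin N → Fin (N + 1) → R) (hu : ∑ i, u i = 0) (hv : ∀ j, ∑ i, v j i = 0) :
    (mat u v).det = 0 := by
  rw [← Matrix.exists_mulVec_eq_zero_iff]
  refine ⟨fun _ => 1, ?_, ?_⟩
  · intro h
    have := congrFun h 0
    simp at this
  · funext j
    rw [Matrix.mulVec, dotProduct]
    simp only [mul_one]
    refine Fin.cases ?_ (fun j => ?_) j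
    · exact hu
    · exact hv j

theorem det_mat_single {R : Type w} [CommRing R] [IsDomain R] (v : Fin N → Fin (N + 1) → R)
    (hv : ∀ j, ∑ i, v j i = 0) (l l' : Fin (N + 1)) :
    (mat (Pi.single l 1) v).det = (mat (Pi.single l' 1) v).det := by
  classical
  have hrow : ∀ u : Fin (N + 1) → R, mat u v = (mat 0 v).updateRow 0 u := by
    intro u
    ext j i
    refine Fin.cases ?_ (fun j => ?_) j
    · rw [Matrix.updateRow_self, mat_zero]
    · rw [Matrix.updateRow_ne (Fin.succ_ne_zero j), mat_succ, mat_succ]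
  have h1 : (Pi.single l 1 : Fin (N + 1) → R) =
      Pi.single l' 1 + (Pi.single l 1 - Pi.single l' 1) := by abel
  rw [h1, hrow, Matrix.det_updateRow_add, ← hrow, ← hrow,
    det_mat_zero_sum (Pi.single l 1 - Pi.single l' 1) v (by simp) hv, add_zero]

theorem det_mat_ne_zero {K : Type w} [Field K] (v : Fin N → Fin (N + 1) → K)
    (hv : ∀ j, ∑ i, v j i = 0) (hind : LinearIndependent K v) (l : Fin (N + 1)) :
    (mat (Pi.single l 1) v).det ≠ 0 := by
  classical
  intro h
  rw [← Matrix.exists_vecMul_eq_zero_iff] at h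
  obtain ⟨x, hx0, hx⟩ := h
  have h1 : ∀ i, x 0 * (Pi.single l 1 : Fin (N + 1) → K) i + ∑ j, x (Fin.succ j) * v j i = 0 := by
    intro i
    have := congrFun hx i
    rw [Matrix.vecMul, dotProduct, Fin.sum_univ_succ] at this
    exact this
  have h2 : x 0 = 0 := by
    have := Finset.sum_congr (rfl : (Finset.univ : Finset (Fin (N + 1))) = Finset.univ)
      fun i _ => h1 i
    rw [Finset.sum_add_distrib, ← Finset.mul_sum, Finset.sum_comm] at this
    simp only [← Finset.mul_sum, hv, mul_zero, Finset.sum_const_zero, add_zero] at this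
    simpa using this
  have h3 : ∑ j, x (Fin.succ j) • v j = 0 := by
    funext i
    have := h1 i
    rw [h2, zero_mul, zero_add] at this
    simpa using this
  have h4 := Fintype.linearIndependent_iff.1 hind _ h3
  apply hx0
  funext j
  refine Fin.cases ?_ (fun j => ?_) j
  · exact h2
  · exact h4 j

end

end Pool.Agent.H4Abcd
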