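import Pool.Agent.H4Abcd.Rank
import Pool.Agent.H4Abcd.Det

/-!
Frames over `k[X]`; the bounds for the determinant at the finite places and at infinity.
-/

namespace Pool.Agent.H4Abcd

open Submodule Module Polynomial

universe u v w

section

variable {k : Type u} [Field k] [Algebra ℚ k] {ι : Type v} {N : ℕ}

/-- The action of words on polynomial vectors. -/
noncomputable def actP (δ : ι → Derivation ℚ k k) (z : Fin (N + 1) → k[X]) :
    List (Option ι) → Fin (N + 1) → k[X]
  | [] => z
  | l :: w => fun i => polyDer δ l (actP δ z w i)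

variable (δ : ι → Derivation ℚ k k) (z : Fin (N + 1) → k[X])

theorem sum_actP (hz : ∑ i, z i = 0) (w : List (Option ι)) : ∑ i, actP δ z w i = 0 := by
  induction w with
  | nil => exact hz
  | cons l w ih =>
    change ∑ i, polyDer δ l (actP δ z w i) = 0
    rw [← map_sum, ih, map_zero]

/-- A general frame. -/
noncomputable def frameT (g : k[X]) (s : List (Option ι) → k[X]) (ξ : ι → k[X]) :
    List (Option ι) → Fin (N + 1) → k[X]
  | [] => z
  | none :: w => fun i => g * derivative (frameT g s ξ w i) + s w * frameT g s ξ w i
  | some b :: w => fun i =>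
      coeffDer (δ b) (frameT g s ξ w i) - ξ b * derivative (frameT g s ξ w i)

theorem actP_cons (l : Option ι) (w : List (Option ι)) (i : Fin (N + 1)) :
    actP δ z (l :: w) i = polyDer δ l (actP δ z w i) := rfl

theorem frameT_none (g : k[X]) (s : List (Option ι) → k[X]) (ξ : ι → k[X])
    (w : List (Option ι)) (i : Fin (N + 1)) : frameT δ z g s ξ (none :: w) i =
      g * derivative (frameT δ z g s ξ w i) + s w * frameT δ z g s ξ w i := rfl

theorem frameT_some (g : k[X]) (s : List (Option ι) → k[X]) (ξ : ι → k[X]) (b : ι)
    (w : List (Option ι)) (i : Fin (N + 1)) : frameT δ z g s ξ (some b :: w) i =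
      coeffDer (δ b) (frameT δ z g s ξ w i) - ξ b * derivative (frameT δ z g s ξ w i) := rfl

variable (K : Type w) [Field K] [Algebra ℚ K] [Algebra k[X] K]

theorem algebraMap_actP (E : Option ι → Derivation ℚ K K)
    (hE : ∀ l f, E l (algebraMap k[X] K f) = algebraMap k[X] K (polyDer δ l f))
    (w : List (Option ι)) (i : Fin (N + 1)) :
    algebraMap k[X] K (actP δ z w i) = act E (fun i => algebraMap k[X] K (z i)) w i := by
  induction w generalizing i with
  | nil => rfl
  | cons l w ih =>
    change algebraMap k[X] K (polyDer δ l (actP δ z w i)) = E l (act E _ w i)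
    rw [← hE, ih]

/-- A family of words with the properties obtained in `exists_family`. -/
structure GoodFamily (w : Fin N → List (Option ι)) : Prop where
  /-- the family is linearly independent -/
  indep : LinearIndependent K (fun j => (fun i => algebraMap k[X] K (actP δ z (w j) i)))
  /-- the span of the words of smaller level -/
  lower : ∀ j u, lvl u < lvl (w j) → (fun i => algebraMap k[X] K (actP δ z u i)) ∈
    span K ((fun j => (fun i => algebraMap k[X] K (actP δ z (w j) i))) '' {i | i < j})

omit [Algebra ℚ k] [Algebra ℚ K] in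
theorem det_map_mat (u : Fin (N + 1) → k[X]) (v : Fin N → Fin (N + 1) → k[X]) :
    algebraMap k[X] K (mat u v).det =
      (mat (fun i => algebraMap k[X] K (u i)) (fun j i => algebraMap k[X] K (v j i))).det := by
  rw [RingHom.map_det]
  congr 1
  ext j i
  refine Fin.cases ?_ (fun j => ?_) j <;> rfl

variable [IsFractionRing k[X] K]

theorem det_frame (E : Option ι → Derivation ℚ K K)
    (hE : ∀ l f, E l (algebraMap k[X] K f) = algebraMap k[X] K (polyDer δ l f))
    (w : Fin N → List (Option ι)) (hw : GoodFamily δ z K w)
    (g : k[X]) (s : List (Option ι) → k[X]) (ξ : ι → k[X])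
    (u : Fin (N + 1) → k[X]) :
    (mat u fun j => frameT δ z g s ξ (w j)).det =
      g ^ (∑ j, nD (w j)) * (mat u fun j => actP δ z (w j)).det := by
  have hinj : Function.Injective (algebraMap k[X] K) := IsFractionRing.injective _ _
  apply hinj
  rw [map_mul, map_pow, det_map_mat, det_map_mat, ← Finset.prod_pow_eq_pow_sum]
  apply det_mat_triangular
  intro j
  set zK : Fin (N + 1) → K := fun i => algebraMap k[X] K (z i) with hzK
  have hf := frame E zK (fun w i => algebraMap k[X] K (frameT δ z g s ξ w i))
    (algebraMap k[X] K g)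
    (fun w => algebraMap k[X] K (s w)) (fun b => algebraMap k[X] K (ξ b))
    rfl
    (by
      intro w i
      rw [frameT_none, hE, polyDer_none, map_add, map_mul, map_mul])
    (by
      intro b w i
      rw [frameT_some, hE, hE, polyDer_none, polyDer_some, map_sub, map_mul]) (w j)
  have hact : ∀ u, act E zK u = fun i => algebraMap k[X] K (actP δ z u i) := by
    intro u
    funext i
    rw [algebraMap_actP δ z K E hE]
  rw [hact] at hf
  refine (span_le.2 ?_) hf
  rintro _ ⟨u, hu, rfl⟩
  rw [hact]
  exact hw.lower j u hu

/-- The determinant. -/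
noncomputable def Delta (w : Fin N → List (Option ι)) : k[X] :=
  (mat (Pi.single 0 1) fun j => actP δ z (w j)).det

theorem det_single_eq (hz : ∑ i, z i = 0) (w : Fin N → List (Option ι)) (l : Fin (N + 1)) :
    (mat (Pi.single l 1) fun j => actP δ z (w j)).det = Delta δ z w :=
  det_mat_single _ (fun j => sum_actP δ z hz (w j)) l 0

omit [Algebra ℚ K] [IsFractionRing k[X] K] in
theorem Delta_ne_zero (hz : ∑ i, z i = 0) (w : Fin N → List (Option ι))
    (hw : GoodFamily δ z K w) : Delta δ z w ≠ 0 := by
  intro h
  have h1 := congrArg (algebraMap k[X] K) h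
  rw [Delta, det_map_mat, map_zero] at h1
  have h2 : (fun i => algebraMap k[X] K ((Pi.single 0 1 : Fin (N + 1) → k[X]) i)) =
      (Pi.single 0 1 : Fin (N + 1) → K) := by
    funext i
    by_cases hi : i = 0
    · subst hi; simp
    · simp [hi]
  rw [h2] at h1
  refine det_mat_ne_zero _ ?_ hw.indep 0 h1
  intro j
  rw [← map_sum, sum_actP δ z hz, map_zero]

end

end Pool.Agent.H4Abcd
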