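import Pool.Agent.H4Abcd.Greedy

/-!
Bound for the total number of letters `none` in the minimal basis.
-/

namespace Pool.Agent.H4Abcd

open Submodule Module

universe v w

section

variable {ι : Type v} {K : Type w} [Field K] [Algebra ℚ K] {n : ℕ}
variable (E : Option ι → Derivation ℚ K K) (z : Fin n → K)

theorem length_le_of_lvl_le {u w : List (Option ι)} (h : lvl w ≤ lvl u) :
    w.length ≤ u.length := by
  by_contra hlt
  rw [not_le] at hlt
  have : lvl u < lvl w := (lvl_lt_iff u w).2 (Or.inl hlt)
  exact absurd this (not_lt.2 h)

/-- Words of length at most `s`. -/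
def wle (s : ℕ) : Set (List (Option ι)) := {u | u.length ≤ s}

theorem finrank_wle {N : ℕ} (w : Fin N → List (Option ι))
    (hw : LinearIndependent K (fun j => act E z (w j)))
    (hP : ∀ u, act E z u ∈ span K ((fun j => act E z (w j)) '' {j | lvl (w j) ≤ lvl u}))
    (s : ℕ) :
    finrank K (spanW E z (wle s)) = (Finset.univ.filter fun j => (w j).length ≤ s).card := by
  classical
  have h1 : spanW E z (wle s) =
      span K (Set.range fun j : {j // (w j).length ≤ s} => act E z (w j)) := by
    apply le_antisymm
    · rw [spanW, span_le]
      rintro _ ⟨u, hu, rfl⟩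
      refine span_mono ?_ (hP u)
      rintro _ ⟨j, hj, rfl⟩
      exact ⟨⟨j, (length_le_of_lvl_le hj).trans hu⟩, rfl⟩
    · rw [span_le]
      rintro _ ⟨j, rfl⟩
      exact act_mem_spanW E z j.2
  have h2 : LinearIndependent K (fun j : {j // (w j).length ≤ s} => act E z (w j)) :=
    hw.comp _ Subtype.val_injective
  rw [h1, finrank_span_eq_card h2, Fintype.card_subtype]

theorem stable {s : ℕ} (h : spanW E z (wle s) = spanW E z (wle (s + 1))) :
    spanW E z (wle s) = spanW E z Set.univ := by
  apply le_antisymm (spanW_mono E z (Set.subset_univ _))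
  rw [spanW, spanW, span_le]
  rintro _ ⟨u, -, rfl⟩
  change act E z u ∈ spanW E z (wle s)
  induction u with
  | nil => exact act_mem_spanW E z (by simp [wle])
  | cons l u ih =>
    rw [h]
    refine der_mem E z l (S := wle s) ?_ ?_ ih
    · intro x hx
      exact Nat.le_succ_of_le hx
    · intro x hx
      exact Nat.succ_le_succ hx

theorem card_growth {N : ℕ} (w : Fin N → List (Option ι))
    (hN : finrank K (spanW E z Set.univ) = N)
    (hw : LinearIndependent K (fun j => act E z (w j)))
    (hP : ∀ u, act E z u ∈ span K ((fun j => act E z (w j)) '' {j | lvl (w j) ≤ lvl u}))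
    (c : ℕ) (h1 : c ≤ finrank K (spanW E z (wle 1))) (s : ℕ) :
    min N (c + s) ≤ (Finset.univ.filter fun j => (w j).length ≤ s + 1).card := by
  induction s with
  | zero =>
    rw [← finrank_wle E z w hw hP]
    exact (min_le_right _ _).trans (by simpa using h1)
  | succ s ih =>
    by_cases hst : spanW E z (wle (s + 1)) = spanW E z (wle (s + 1 + 1))
    · have h2 := stable E z hst
      rw [← finrank_wle E z w hw hP, ← hst, h2, hN]
      exact min_le_left _ _
    · have hlt : spanW E z (wle (s + 1)) < spanW E z (wle (s + 1 + 1)) :=
        lt_of_le_of_ne (spanW_mono E z fun x hx => Nat.le_succ_of_le hx) hst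
      have h3 := finrank_lt_finrank_of_lt hlt
      rw [finrank_wle E z w hw hP, finrank_wle E z w hw hP] at h3
      omega

theorem sum_nD_le {m r : ℕ} (w : Fin (m + r + 2) → List (Option ι))
    (hN : finrank K (spanW E z Set.univ) = m + r + 2)
    (hw : LinearIndependent K (fun j => act E z (w j)))
    (hP : ∀ u, act E z u ∈ span K ((fun j => act E z (w j)) '' {j | lvl (w j) ≤ lvl u}))
    (h1 : r + 2 ≤ finrank K (spanW E z (wle 1))) :
    2 * ∑ j, nD (w j) ≤ (m + 1) * (m + 2) := by
  classical
  have hcard := fun s => card_growth E z w hN hw hP (r + 2) h1 s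
  -- the complementary counts
  set q : ℕ → ℕ := fun s => (Finset.univ.filter fun j => s < (w j).length).card with hq
  have hqle : ∀ s, q (s + 1) ≤ m - s := by
    intro s
    have h2 : q (s + 1) + (Finset.univ.filter fun j => (w j).length ≤ s + 1).card =
        m + r + 2 := by
      have := Finset.card_filter_add_card_filter_not (s := (Finset.univ : Finset (Fin (m + r + 2))))
        (fun j => s + 1 < (w j).length)
      simp only [not_lt, Finset.card_univ, Fintype.card_fin] at this
      exact this
    have := hcard s
    omega
  -- words equal to `[none]`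
  have hinj : Function.Injective w := fun i j hij => hw.injective (by simp [hij])
  have hone : (Finset.univ.filter fun j => w j = [none]).card ≤ 1 := by
    rw [Finset.card_le_one]
    intro i hi j hj
    rw [Finset.mem_filter] at hi hj
    exact hinj (hi.2.trans hj.2.symm)
  have hlen : ∀ j, (w j).length ≤ m + 1 := by
    intro j
    by_contra hlt
    rw [not_le] at hlt
    have : 0 < q (m + 1) := Finset.card_pos.2 ⟨j, by simp [hlt]⟩
    have := hqle m
    omega
  have hterm : ∀ j, nD (w j) ≤ (if w j = [none] then 1 else 0) +
      (if 1 < (w j).length then 1 else 0) +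
      ∑ s ∈ Finset.range m, (if s + 1 < (w j).length then 1 else 0) := by
    intro j
    by_cases h2 : 1 < (w j).length
    · have e1 : ∑ s ∈ Finset.range m, (if s + 1 < (w j).length then 1 else 0) =
          (w j).length - 1 := by
        rw [Finset.sum_boole, Nat.cast_id]
        have : (Finset.range m).filter (fun s => s + 1 < (w j).length) =
            Finset.range ((w j).length - 1) := by
          ext s
          simp only [Finset.mem_filter, Finset.mem_range]
          have := hlen j
          omega
        rw [this, Finset.card_range]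
      rw [e1, if_pos h2]
      have := nD_le_length (w j)
      omega
    · rcases hwj : w j with _ | ⟨l, _ | ⟨l', t⟩⟩
      · simp [nD]
      · cases l <;> simp [nD]
      · rw [hwj] at h2
        simp at h2
  calc 2 * ∑ j, nD (w j)
      ≤ 2 * ∑ j, ((if w j = [none] then 1 else 0) + (if 1 < (w j).length then 1 else 0) +
        ∑ s ∈ Finset.range m, (if s + 1 < (w j).length then 1 else 0)) :=
        Nat.mul_le_mul_left _ (Finset.sum_le_sum fun j _ => hterm j)
    _ = 2 * ((Finset.univ.filter fun j => w j = [none]).card + q 1 +
        ∑ s ∈ Finset.range m, q (s + 1)) := by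
        rw [Finset.sum_add_distrib, Finset.sum_add_distrib, Finset.sum_comm]
        simp only [Finset.sum_boole, Nat.cast_id, hq]
    _ ≤ 2 * (1 + m + ∑ s ∈ Finset.range m, (m - s)) := by
        have h2 : q 1 ≤ m := hqle 0
        have h3 : ∑ s ∈ Finset.range m, q (s + 1) ≤ ∑ s ∈ Finset.range m, (m - s) :=
          Finset.sum_le_sum fun s _ => hqle s
        omega
    _ = (m + 1) * (m + 2) := by
        have h4 : ∑ s ∈ Finset.range m, (m - s) = ∑ s ∈ Finset.range m, (s + 1) := by
          rw [← Finset.sum_range_reflect]
          refine Finset.sum_congr rfl fun s hs => ?_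
          rw [Finset.mem_range] at hs
          omega
        have h5 := Finset.sum_range_id_mul_two (m + 1)
        rw [Finset.sum_range_succ'] at h5
        rw [h4]
        simp only [add_zero, Nat.add_sub_cancel] at h5
        nlinarith [h5]

end

end Pool.Agent.H4Abcd
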