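import Pool.Agent.H4Abcd.Words

/-!
A minimal basis of words.
-/

namespace Pool.Agent.H4Abcd

open Submodule Module

universe v w

section

variable {K : Type w} [Field K] {V : Type v} [AddCommGroup V] [Module K V] {N : ℕ}

/-- Exchange: replacing `v j` by a vector whose expansion involves `v j` keeps independence. -/
theorem linearIndependent_update (v : Fin N → V) (hv : LinearIndependent K v) (a : Fin N → K)
    (j : Fin N) (ha : a j ≠ 0) :
    LinearIndependent K (Function.update v j (∑ i, a i • v i)) := by
  classical
  rw [Fintype.linearIndependent_iff] at hv ⊢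
  intro b hb
  have h1 : ∑ i, b i • Function.update v j (∑ i, a i • v i) i =
      ∑ i, (b j * a i + (if i = j then 0 else b i)) • v i := by
    have e1 : ∀ x : V, ∑ i, b i • Function.update v j x i =
        b j • x + ∑ i, (if i = j then 0 else b i) • v i := by
      intro x
      rw [← Finset.add_sum_erase _ _ (Finset.mem_univ j), Function.update_self,
        ← Finset.add_sum_erase Finset.univ (fun i => (if i = j then (0 : K) else b i) • v i)
          (Finset.mem_univ j), if_pos rfl, zero_smul, zero_add]
      congr 1
      refine Finset.sum_congr rfl fun i hi => ?_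
      have hij : i ≠ j := Finset.ne_of_mem_erase hi
      rw [Function.update_of_ne hij, if_neg hij]
    rw [e1, Finset.smul_sum]
    simp only [add_smul, Finset.sum_add_distrib, smul_smul]
  rw [h1] at hb
  have h2 := hv _ hb
  have hbj : b j = 0 := by
    have := h2 j
    rw [if_pos rfl, add_zero] at this
    exact (mul_eq_zero.1 this).resolve_right ha
  intro i
  by_cases hij : i = j
  · rw [hij]; exact hbj
  · have := h2 i
    rw [if_neg hij, hbj, zero_mul, zero_add] at this
    exact this

end

section

variable {ι : Type v} {K : Type w} [Field K] [Algebra ℚ K] {n : ℕ}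
variable (E : Option ι → Derivation ℚ K K) (z : Fin n → K)

/-- Existence of a minimal basis of words. -/
theorem exists_family {N : ℕ} (hN : finrank K (spanW E z Set.univ) = N) :
    ∃ w : Fin N → List (Option ι), LinearIndependent K (fun j => act E z (w j)) ∧
      (∀ u, act E z u ∈ span K ((fun j => act E z (w j)) '' {j | lvl (w j) ≤ lvl u})) ∧
      Monotone (fun j => lvl (w j)) := by
  classical
  subst hN
  set N := finrank K (spanW E z Set.univ) with hN
  let F : Set (Fin N → List (Option ι)) := {w | LinearIndependent K (fun j => act E z (w j))}
  let μ : (Fin N → List (Option ι)) → ℕ ×ₗ ℕ := fun w =>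
    toLex (∑ j, (w j).length, ∑ j, nO (w j))
  have hF : F.Nonempty := by
    obtain ⟨f, hf, _, hf2⟩ : ∃ f : Fin N → (Fin n → K), (∀ i, f i ∈ act E z '' Set.univ) ∧
        span K (Set.range f) = span K (act E z '' Set.univ) ∧ LinearIndependent K f :=
      exists_fun_fin_finrank_span_eq K (act E z '' Set.univ)
    choose w _ hw using hf
    refine ⟨w, ?_⟩
    change LinearIndependent K (fun j => act E z (w j))
    simp only [hw]
    exact hf2
  obtain ⟨w, hwF, hwmin⟩ : ∃ w ∈ F, ∀ w' ∈ F, ¬ μ w' < μ w := by
    have hwf : WellFounded (fun a b : Fin N → List (Option ι) => μ a < μ b) :=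
      InvImage.wf μ wellFounded_lt
    exact ⟨hwf.min F hF, hwf.min_mem F hF, fun w' hw' => hwf.not_lt_min F hw'⟩
  have hspan : spanW E z Set.univ = span K (Set.range fun j => act E z (w j)) := by
    symm
    apply eq_of_le_of_finrank_eq
    · rw [span_le]
      rintro _ ⟨j, rfl⟩
      exact act_mem_spanW E z (Set.mem_univ _)
    · rw [← hN, finrank_span_eq_card hwF, Fintype.card_fin]
  have hP : ∀ u, act E z u ∈ span K ((fun j => act E z (w j)) '' {j | lvl (w j) ≤ lvl u}) := by
    intro u
    have hu : act E z u ∈ spanW E z Set.univ := act_mem_spanW E z (Set.mem_univ _)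
    rw [hspan, mem_span_range_iff_exists_fun] at hu
    obtain ⟨a, ha⟩ := hu
    rw [← ha]
    refine sum_mem fun j _ => ?_
    by_cases haj : a j = 0
    · rw [haj, zero_smul]; exact zero_mem _
    · refine smul_mem _ _ (subset_span ⟨j, ?_, rfl⟩)
      change lvl (w j) ≤ lvl u
      by_contra hlt
      rw [not_le] at hlt
      have hmem : Function.update w j u ∈ F := by
        have h1 := linearIndependent_update (fun j => act E z (w j)) hwF a j haj
        have h2 : (fun i => act E z (Function.update w j u i)) =
            Function.update (fun j => act E z (w j)) j (∑ i, a i • act E z (w i)) := by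
          funext i
          by_cases hij : i = j
          · subst hij; simp [ha]
          · simp [Function.update_of_ne hij]
        change LinearIndependent K (fun i => act E z (Function.update w j u i))
        rw [h2]
        exact h1
      apply hwmin _ hmem
      have e1 : ∀ f : List (Option ι) → ℕ, ∑ i, f (Function.update w j u i) + f (w j) =
          ∑ i, f (w i) + f u := by
        intro f
        rw [← Finset.add_sum_erase _ _ (Finset.mem_univ j),
          ← Finset.add_sum_erase Finset.univ (fun i => f (w i)) (Finset.mem_univ j),
          Function.update_self]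
        have : ∑ i ∈ Finset.univ.erase j, f (Function.update w j u i) =
            ∑ i ∈ Finset.univ.erase j, f (w i) := by
          refine Finset.sum_congr rfl fun i hi => ?_
          rw [Function.update_of_ne (Finset.ne_of_mem_erase hi)]
        rw [this]; ring
      have h1 := e1 List.length
      have h2 := e1 nO
      rw [lvl_lt_iff] at hlt
      change toLex _ < toLex _
      rw [Prod.Lex.toLex_lt_toLex]
      change ∑ i, (Function.update w j u i).length < ∑ i, (w i).length ∨ _ ∧
        ∑ i, nO (Function.update w j u i) < ∑ i, nO (w i)
      omega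
  -- sort the family
  let σ := Tuple.sort fun j => lvl (w j)
  refine ⟨w ∘ σ, ?_, ?_, Tuple.monotone_sort fun j => lvl (w j)⟩
  · exact hwF.comp σ σ.injective
  · intro u
    refine span_mono ?_ (hP u)
    rintro _ ⟨j, hj, rfl⟩
    refine ⟨σ.symm j, ?_, ?_⟩
    · simpa using hj
    · simp

end

end Pool.Agent.H4Abcd
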