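import Mathlib

/-!
Differentials of fields of characteristic zero: a transcendence basis gives a basis of the module of
differentials; extension of derivations to a field of fractions.
-/

namespace Pool.Agent.H4Abcd

open KaehlerDifferential TensorProduct

universe u v

section Basis

variable {L : Type u} [Field L] [Algebra ℚ L] {ι : Type v}

open scoped IntermediateField.algebraAdjoinAdjoin in
/-- A transcendence basis gives a basis of the differentials. -/
theorem exists_basis_of_isTranscendenceBasis (x : ι → L) (hx : IsTranscendenceBasis ℚ x) :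
    ∃ b : Module.Basis ι L (Ω[L⁄ℚ]), ∀ i, b i = D ℚ L (x i) := by
  let A := Algebra.adjoin ℚ (Set.range x)
  let F := IntermediateField.adjoin ℚ (Set.range x)
  -- `F` is formally etale over `A` and `L` is formally etale over `F`
  have h1 : Algebra.FormallyEtale A F := .of_isLocalization (nonZeroDivisors A)
  have : Algebra.IsAlgebraic F L := hx.isAlgebraic_field
  have h2 : Algebra.FormallyEtale F L := Algebra.FormallyEtale.of_isSeparable F L
  have h3 : Algebra.FormallyEtale A L := .comp A F L
  let e : MvPolynomial ι ℚ ≃ₐ[ℚ] A := hx.1.aevalEquiv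
  let algA : Algebra (MvPolynomial ι ℚ) A := e.toRingHom.toAlgebra
  let algL : Algebra (MvPolynomial ι ℚ) L := (MvPolynomial.aeval (R := ℚ) x).toRingHom.toAlgebra
  have t1 : IsScalarTower (MvPolynomial ι ℚ) A L := by
    refine IsScalarTower.of_algebraMap_eq fun p => ?_
    exact (hx.1.algebraMap_aevalEquiv p).symm
  have t2 : IsScalarTower ℚ (MvPolynomial ι ℚ) L := by
    refine IsScalarTower.of_algebraMap_eq fun p => ?_
    exact ((MvPolynomial.aeval (R := ℚ) x).commutes p).symm
  let e' : MvPolynomial ι ℚ ≃ₐ[MvPolynomial ι ℚ] A :=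
    AlgEquiv.ofRingEquiv (f := e.toRingEquiv) (fun p => rfl)
  have h4 : Algebra.FormallyEtale (MvPolynomial ι ℚ) A := .of_equiv e'
  have h5 : Algebra.FormallyEtale (MvPolynomial ι ℚ) L := .comp _ A L
  let b0 := (mvPolynomialBasis ℚ ι).baseChange L
  refine ⟨b0.map (tensorKaehlerEquivOfFormallyEtale ℚ (MvPolynomial ι ℚ) L), fun i => ?_⟩
  rw [Module.Basis.map_apply, Module.Basis.baseChange_apply, mvPolynomialBasis_apply,
    tensorKaehlerEquivOfFormallyEtale_apply, mapBaseChange_tmul, one_smul, map_D]
  congr 1
  exact MvPolynomial.aeval_X x i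

/-- Differentials of algebraically independent elements are linearly independent. -/
theorem linearIndependent_D_of_algebraicIndependent (x : ι → L)
    (hx : AlgebraicIndependent ℚ x) : LinearIndependent L fun i => D ℚ L (x i) := by
  obtain ⟨s, hs, hs'⟩ := exists_isTranscendenceBasis_superset
    ((algebraicIndependent_subtype_range hx.injective).2 hx)
  obtain ⟨b, hb⟩ := exists_basis_of_isTranscendenceBasis _ hs'
  have h := b.linearIndependent.comp (fun i => (⟨x i, hs ⟨i, rfl⟩⟩ : s)) (fun i j hij =>
    hx.injective (congrArg Subtype.val hij))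
  convert h using 1
  funext i
  exact (hb ⟨x i, hs ⟨i, rfl⟩⟩).symm

/-- There are derivations dual to a transcendence basis. -/
theorem exists_dual_derivations (x : ι → L) (hx : IsTranscendenceBasis ℚ x) :
    ∃ d : ι → Derivation ℚ L L, (∀ i, d i (x i) = 1) ∧ (∀ i j, i ≠ j → d i (x j) = 0) := by
  classical
  obtain ⟨b, hb⟩ := exists_basis_of_isTranscendenceBasis x hx
  refine ⟨fun i => (b.coord i).compDer (D ℚ L), fun i => ?_, fun i j hij => ?_⟩
  · change b.coord i (D ℚ L (x i)) = 1
    rw [← hb i, Module.Basis.coord_apply, Module.Basis.repr_self, Finsupp.single_eq_same]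
  · change b.coord i (D ℚ L (x j)) = 0
    rw [← hb j, Module.Basis.coord_apply, Module.Basis.repr_self, Finsupp.single_eq_of_ne]
    exact hij

end Basis

section Ext

variable {R : Type u} [CommRing R] [Algebra ℚ R] {K : Type v} [Field K] [Algebra ℚ K]
  [Algebra R K] [IsScalarTower ℚ R K] [IsFractionRing R K]

/-- Extension of a derivation of a domain to its field of fractions. -/
theorem exists_extend (d : Derivation ℚ R R) :
    ∃ d' : Derivation ℚ K K, ∀ f : R, d' (algebraMap R K f) = algebraMap R K (d f) := by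
  have : Algebra.FormallyEtale R K := .of_isLocalization (nonZeroDivisors R)
  let d1 : Derivation ℚ R K := (Algebra.linearMap R K).compDer d
  let l1 : Ω[R⁄ℚ] →ₗ[R] K := d1.liftKaehlerDifferential
  let l2 : K ⊗[R] Ω[R⁄ℚ] →ₗ[K] K := l1.liftBaseChange K
  let l3 : Ω[K⁄ℚ] →ₗ[K] K := l2 ∘ₗ (tensorKaehlerEquivOfFormallyEtale ℚ R K).symm.toLinearMap
  refine ⟨l3.compDer (D ℚ K), fun f => ?_⟩
  change l2 ((tensorKaehlerEquivOfFormallyEtale ℚ R K).symm (D ℚ K (algebraMap R K f))) = _
  rw [tensorKaehlerEquivOfFormallyEtale_symm_D_algebraMap]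
  change (l1.liftBaseChange K) (1 ⊗ₜ[R] D ℚ R f) = _
  rw [LinearMap.liftBaseChange_tmul, one_smul]
  change d1.liftKaehlerDifferential (D ℚ R f) = _
  rw [Derivation.liftKaehlerDifferential_comp_D]
  rfl

end Ext

end Pool.Agent.H4Abcd
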