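import Pool.Agent.H4Abcd.Places

/-!
The main inequality.
-/

namespace Pool.Agent.H4Abcd

open Submodule Module Polynomial UniqueFactorizationMonoid

universe u v w

section UFD

theorem dvd_of_forall_pow {R : Type u} [CommRing R] [IsDomain R] [UniqueFactorizationMonoid R]
    [NormalizationMonoid R] {a b : R} (ha : a ≠ 0) (hb : b ≠ 0)
    (h : ∀ p, Irreducible p → ∀ n, p ^ n ∣ a → p ^ n ∣ b) : a ∣ b := by
  classical
  rw [dvd_iff_normalizedFactors_le_normalizedFactors ha hb, Multiset.le_iff_count]
  intro p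
  by_cases hp : p ∈ normalizedFactors a
  · have hirr := irreducible_of_normalized_factor p hp
    have h1 := emultiplicity_eq_count_normalizedFactors hirr ha
    have h2 := emultiplicity_eq_count_normalizedFactors hirr hb
    rw [normalize_normalized_factor p hp] at h1 h2
    have h3 : p ^ (normalizedFactors a).count p ∣ a := by
      rw [pow_dvd_iff_le_emultiplicity, h1]
    have h4 := h p hirr _ h3
    rw [pow_dvd_iff_le_emultiplicity, h2] at h4
    exact_mod_cast h4
  · rw [Multiset.count_eq_zero_of_notMem hp]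
    exact Nat.zero_le _

end UFD

section

variable {k : Type u} [Field k] [Algebra ℚ k] {ι : Type v} {N : ℕ}
variable (δ : ι → Derivation ℚ k k) (z : Fin (N + 1) → k[X])
variable (K : Type w) [Field K] [Algebra ℚ K] [Algebra k[X] K] [IsFractionRing k[X] K]

theorem prod_dvd [DecidableEq k] (hz : ∑ i, z i = 0) (E : Option ι → Derivation ℚ K K)
    (hE : ∀ l f, E l (algebraMap k[X] K f) = algebraMap k[X] K (polyDer δ l f))
    (w : Fin N → List (Option ι)) (hw : GoodFamily δ z K w)
    (hz0 : ∀ i, z i ≠ 0) (hcop : ∀ p : k[X], (∀ i, p ∣ z i) → IsUnit p) :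
    ∏ i, z i ∣ radical (∏ i, z i) ^ (∑ j, nD (w j)) * Delta δ z w := by
  have hne := Delta_ne_zero δ z K hz w hw
  have hprod : ∏ i, z i ≠ 0 := Finset.prod_ne_zero_iff.2 fun i _ => hz0 i
  apply dvd_of_forall_pow hprod (mul_ne_zero (pow_ne_zero _ radical_ne_zero) hne)
  intro p hp n hn
  rcases Nat.eq_zero_or_pos n with rfl | hpos
  · simp
  · have hpdvd : p ∣ ∏ i, z i := (dvd_pow_self p hpos.ne').trans hn
    have hprad : p ∣ radical (∏ i, z i) :=
      (dvd_radical_iff_of_irreducible hp hprod).2 hpdvd
    have hfin : ∀ i, FiniteMultiplicity p (z i) := fun i =>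
      FiniteMultiplicity.of_not_isUnit hp.not_isUnit (hz0 i)
    obtain ⟨l, hl⟩ : ∃ l, ¬ p ∣ z l := by
      by_contra hall
      push Not at hall
      exact hp.not_isUnit (hcop p hall)
    have h1 := local_dvd δ z K hz E hE w hw p hp (fun i => multiplicity p (z i))
      (fun i => pow_multiplicity_dvd p (z i)) l (multiplicity_eq_zero.2 hl)
    have h2 : n ≤ ∑ i, multiplicity p (z i) := by
      have h3 : emultiplicity p (∏ i, z i) = ((∑ i, multiplicity p (z i) : ℕ) : ℕ∞) := by
        rw [Finset.emultiplicity_prod hp.prime]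
        push_cast
        exact Finset.sum_congr rfl fun i _ => (hfin i).emultiplicity_eq_multiplicity
      rw [pow_dvd_iff_le_emultiplicity, h3] at hn
      exact_mod_cast hn
    exact (pow_dvd_pow p h2).trans (h1.trans (mul_dvd_mul_right (pow_dvd_pow_of_dvd hprad _) _))

/-- The inequality in terms of the total number `A` of letters `none`. -/
theorem height_bound [DecidableEq k] (hz : ∑ i, z i = 0) (E : Option ι → Derivation ℚ K K)
    (hE : ∀ l f, E l (algebraMap k[X] K f) = algebraMap k[X] K (polyDer δ l f))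
    (w : Fin N → List (Option ι)) (hw : GoodFamily δ z K w)
    (hz0 : ∀ i, z i ≠ 0) (hcop : ∀ p : k[X], (∀ i, p ∣ z i) → IsUnit p) (l : Fin (N + 1)) :
    (z l).natDegree + 2 * ∑ j, nD (w j) ≤
      (∑ j, nD (w j)) * ((radical (∏ i, z i)).natDegree +
        if ∀ i j, (z i).natDegree = (z j).natDegree then 0 else 1) := by
  have hne := Delta_ne_zero δ z K hz w hw
  have h1 := natDegree_le_of_dvd (prod_dvd δ z K hz E hE w hw hz0 hcop)
    (mul_ne_zero (pow_ne_zero _ radical_ne_zero) hne)
  rw [natDegree_prod _ _ fun i _ => hz0 i,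
    natDegree_mul (pow_ne_zero _ radical_ne_zero) hne, natDegree_pow] at h1
  split_ifs with hall
  · have h2 := natDegree_Delta_le' δ z K hz E hE w hw (z l).natDegree (fun i => hall i l)
    rw [add_zero]
    omega
  · have h2 := natDegree_Delta_le δ z K hz w hw l
    rw [mul_add, mul_one]
    omega

end

section

variable {k : Type u} [Field k] [Algebra ℚ k]
variable {K : Type w} [Field K] [Algebra ℚ K] [Algebra k[X] K] [IsScalarTower ℚ k[X] K]
  [IsFractionRing k[X] K]

theorem exists_const_of_isAlgebraic (f : K) (hf : IsAlgebraic ℚ f) :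
    ∃ a : k, IsAlgebraic ℚ a ∧ f = algebraMap k[X] K (C a) := by
  have h1 : IsIntegral ℚ f := hf.isIntegral
  have h2 : IsIntegral k[X] f := h1.tower_top
  obtain ⟨g, hg⟩ := IsIntegrallyClosed.isIntegral_iff.1 h2
  obtain ⟨p, hp, hpg⟩ := h1
  have hinj : Function.Injective (algebraMap k[X] K) := IsFractionRing.injective _ _
  have h3 : aeval g p = 0 := by
    apply hinj
    rw [map_zero, ← aeval_algebraMap_apply, hg]
    exact hpg
  have h4 : (p.map (algebraMap ℚ k)).comp g = 0 := by
    rw [← h3, aeval_def, comp, eval₂_map]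
    rfl
  have h5 : g.natDegree = 0 := by
    have h6 := congrArg natDegree h4
    rw [natDegree_comp, natDegree_zero] at h6
    rcases Nat.mul_eq_zero.1 h6 with h7 | h7
    · exfalso
      rw [(Monic.map (algebraMap ℚ k) hp).natDegree_eq_zero] at h7
      rw [h7, one_comp] at h4
      exact one_ne_zero h4
    · exact h7
  rw [natDegree_eq_zero] at h5
  obtain ⟨a, ha⟩ := h5
  refine ⟨a, ⟨p, hp.ne_zero, ?_⟩, ?_⟩
  · have h8 : C (aeval a p) = (0 : k[X]) := by
      rw [← h3, ← ha]
      exact (aeval_algebraMap_apply k[X] a p).symm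
    exact C_injective (by rw [h8, C_0])
  · rw [ha, hg]

theorem der_algebraic (d : Derivation ℚ K K) (f : K) (hf : IsAlgebraic ℚ f) : d f = 0 := by
  have h1 := hf.isIntegral
  have h2 : aeval f (minpoly ℚ f) = 0 := minpoly.aeval ℚ f
  have h3 : aeval f (derivative (minpoly ℚ f)) ≠ 0 :=
    (minpoly.irreducible h1).separable.aeval_derivative_ne_zero h2
  have h4 := d.map_aeval (minpoly ℚ f) f
  rw [h2, map_zero, smul_eq_mul] at h4
  exact (mul_eq_zero.1 h4.symm).resolve_left h3

end

section

variable {k : Type u} [Field k] [Algebra ℚ k]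
variable {K : Type w} [Field K] [Algebra ℚ K] [Algebra k[X] K] [IsScalarTower ℚ k[X] K]
  [IsFractionRing k[X] K]

/-- With `N` algebraically independent ratios there is no further linear relation. -/
theorem rel_of_max {Λ : Type*} (E : Λ → Derivation ℚ K K)
    (hE : ∀ η : Ω[K⁄ℚ], (∀ l, (E l).liftKaehlerDifferential η = 0) → η = 0)
    {N : ℕ} (r : ℕ) (hN : N = r + 2) (z : Fin (N + 1) → K)
    (hz : ∑ i, z i = 0) (idx : Fin (r + 1) → Fin (N + 1))
    (hind : AlgebraicIndependent ℚ fun j => z (idx j) / z (Fin.last N))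
    (c : Fin (N + 1) → K) (hc : ∀ i, IsAlgebraic ℚ (c i)) (hrel : ∑ i, c i * z i = 0) :
    ∀ i j, c i = c j := by
  classical
  subst hN
  have hlast0 : z (Fin.last (r + 2)) ≠ 0 := by
    intro h
    have := hind.transcendental 0
    rw [h, div_zero] at this
    exact this (isAlgebraic_zero)
  have hinj : Function.Injective idx := fun a b hab => hind.injective (by simp only [hab])
  have hnot : ∀ j, idx j ≠ Fin.last (r + 2) := by
    intro j hj
    have := hind.transcendental j
    simp only [hj, div_self hlast0] at this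
    exact this isAlgebraic_one
  set T : Finset (Fin (r + 2 + 1)) := Finset.univ.image idx with hT
  have hTc : T.card = r + 1 := by
    rw [hT, Finset.card_image_of_injective _ hinj, Finset.card_univ, Fintype.card_fin]
  have hlT : Fin.last (r + 2) ∉ T := by
    rw [hT, Finset.mem_image]
    rintro ⟨j, -, hj⟩
    exact hnot j hj
  obtain ⟨i0, hi0⟩ : ∃ i0, i0 ∉ insert (Fin.last (r + 2)) T := by
    by_contra hall
    push Not at hall
    have : (insert (Fin.last (r + 2)) T) = Finset.univ := Finset.eq_univ_of_forall hall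
    have h2 := congrArg Finset.card this
    rw [Finset.card_insert_of_notMem hlT, hTc, Finset.card_univ, Fintype.card_fin] at h2
    omega
  have huniv : (Finset.univ : Finset (Fin (r + 2 + 1))) =
      insert i0 (insert (Fin.last (r + 2)) T) := by
    symm
    apply Finset.eq_univ_of_card
    rw [Finset.card_insert_of_notMem hi0, Finset.card_insert_of_notMem hlT, hTc, Fintype.card_fin]
  -- subtract the value at `i0`
  have h1 : ∑ i, (c i - c i0) * z i = 0 := by
    simp only [sub_mul, Finset.sum_sub_distrib, hrel, ← Finset.mul_sum, hz, mul_zero, sub_zero]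
  rw [huniv, Finset.sum_insert hi0, Finset.sum_insert hlT, sub_self, zero_mul, zero_add, hT,
    Finset.sum_image fun a _ b _ h => hinj h] at h1
  have halg : ∀ i, IsAlgebraic ℚ (c i - c i0) := fun i => (hc i).sub (hc i0)
  have h2 : (c (Fin.last (r + 2)) - c i0) +
      ∑ j, (c (idx j) - c i0) * (z (idx j) / z (Fin.last (r + 2))) = 0 := by
    have h3 : (c (Fin.last (r + 2)) - c i0) +
        ∑ j, (c (idx j) - c i0) * (z (idx j) / z (Fin.last (r + 2))) =
        ((c (Fin.last (r + 2)) - c i0) * z (Fin.last (r + 2)) +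
          ∑ j, (c (idx j) - c i0) * z (idx j)) / z (Fin.last (r + 2)) := by
      rw [add_div, mul_div_cancel_right₀ _ hlast0, Finset.sum_div]
      simp only [mul_div_assoc]
    rw [h3, h1, zero_div]
  have h4 : (fun j => c (idx j) - c i0) = 0 := by
    apply coeff_eq_zero_of_forall E hE _ hind
    intro l
    have h5 := congrArg (E l) h2
    rw [map_add, der_algebraic (E l) _ (halg _), zero_add, map_sum, map_zero] at h5
    rw [← h5]
    refine Finset.sum_congr rfl fun j _ => ?_
    rw [Derivation.leibniz, der_algebraic (E l) _ (halg _), smul_zero, add_zero, smul_eq_mul]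
  have h5 : ∀ j, c (idx j) = c i0 := fun j => sub_eq_zero.1 (congrFun h4 j)
  have h6 : c (Fin.last (r + 2)) = c i0 := by
    simp only [h5, sub_self, zero_mul, Finset.sum_const_zero, add_zero] at h2
    exact sub_eq_zero.1 h2
  have h7 : ∀ i, c i = c i0 := by
    intro i
    have hi : i ∈ (Finset.univ : Finset (Fin (r + 2 + 1))) := Finset.mem_univ i
    rw [huniv, Finset.mem_insert, Finset.mem_insert, hT, Finset.mem_image] at hi
    rcases hi with rfl | rfl | ⟨j, -, rfl⟩
    · rfl
    · exact h6
    · exact h5 j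
  intro i j
  rw [h7 i, h7 j]

end

section

variable {k : Type u} [Field k] [CharZero k] [DecidableEq k]

/-- The main inequality. -/
theorem main (m r : ℕ) (z : Fin (m + r + 3) → k[X]) (hz : ∑ i, z i = 0)
    (hcop : ∀ p : k[X], (∀ i, p ∣ z i) → IsUnit p) (hnc : ∃ i, (z i).natDegree ≠ 0)
    (hrel : 0 < m → ∀ c : Fin (m + r + 3) → k, (∀ i, IsAlgebraic ℚ (c i)) →
      ∑ i, C (c i) * z i = 0 → ∀ i j, c i = c j)
    (idx : Fin (r + 1) → Fin (m + r + 3))
    (hind : AlgebraicIndependent ℚ fun j => algebraMap k[X] (RatFunc k) (z (idx j)) /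
      algebraMap k[X] (RatFunc k) (z (Fin.last (m + r + 2)))) (l : Fin (m + r + 3)) :
    2 * (z l).natDegree + 2 * ((m + 1) * (m + 2)) ≤
      (m + 1) * (m + 2) * ((radical (∏ i, z i)).natDegree +
        if ∀ i j, (z i).natDegree = (z j).natDegree then 0 else 1) := by
  obtain ⟨ι, δ, E, hE, hE2⟩ := exists_letters k (RatFunc k)
  have hinjK : Function.Injective (algebraMap k[X] (RatFunc k)) := IsFractionRing.injective _ _
  set zK : Fin (m + r + 2 + 1) → RatFunc k := fun i => algebraMap k[X] (RatFunc k) (z i) with hzK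
  have hzK0 : ∑ i, zK i = 0 := by
    rw [hzK, ← map_sum, hz, map_zero]
  have hrelK : ∀ c : Fin (m + r + 2 + 1) → RatFunc k, (∀ i, IsAlgebraic ℚ (c i)) →
      ∑ i, c i * zK i = 0 → ∀ i j, c i = c j := by
    intro c hc hsum
    rcases Nat.eq_zero_or_pos m with rfl | hm
    · exact rel_of_max E hE2 r (by omega) zK hzK0 idx hind c hc hsum
    · choose a ha1 ha2 using fun i => exists_const_of_isAlgebraic (k := k) (c i) (hc i)
      have h1 : ∑ i, C (a i) * z i = 0 := by
        apply hinjK
        rw [map_sum, map_zero, ← hsum]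
        refine Finset.sum_congr rfl fun i _ => ?_
        rw [map_mul, ← ha2]
      intro i j
      rw [ha2 i, ha2 j, hrel hm a ha1 h1 i j]
  have halg : ∀ f : RatFunc k, (∀ l, E l f = 0) → IsAlgebraic ℚ f :=
    isAlgebraic_of_forall E hE2
  have hNrank := finrank_univ E zK hzK0 halg hrelK
  obtain ⟨w, hw1, hw2, hw3⟩ := exists_family E zK hNrank
  have hlast0 : zK (Fin.last (m + r + 2)) ≠ 0 := by
    intro h
    have := hind.transcendental 0
    change Transcendental ℚ (zK (idx 0) / zK (Fin.last (m + r + 2))) at this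
    rw [h, div_zero] at this
    exact this (isAlgebraic_zero)
  have hrank1 := finrank_one E zK hlast0 idx fun c hc =>
    coeff_eq_zero_of_forall E hE2 _ hind c hc
  have hA := sum_nD_le E zK w hNrank hw1 hw2 hrank1
  have hact : ∀ u, (fun i => algebraMap k[X] (RatFunc k) (actP δ z u i)) = act E zK u := by
    intro u
    funext i
    exact algebraMap_actP δ z (RatFunc k) E hE u i
  have hgood : GoodFamily δ z (RatFunc k) w := by
    have hfam : (fun j => (fun i => algebraMap k[X] (RatFunc k) (actP δ z (w j) i))) =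
        fun j => act E zK (w j) := funext fun j => hact (w j)
    refine ⟨?_, ?_⟩
    · rw [hfam]
      exact hw1
    · intro j u hu
      rw [hfam, hact]
      refine span_mono ?_ (hw2 u)
      rintro _ ⟨i, hi, rfl⟩
      refine ⟨i, ?_, rfl⟩
      by_contra hij
      have : lvl (w j) ≤ lvl (w i) := hw3 (not_lt.1 hij)
      exact absurd (lt_of_le_of_lt (this.trans hi) hu) (lt_irrefl _)
  have hz0 : ∀ i, z i ≠ 0 := by
    intro i hi
    have h1 := hrelK (Pi.single i 1) (by
      intro j
      by_cases hj : j = i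
      · subst hj; simpa using isAlgebraic_one
      · simpa [hj] using isAlgebraic_zero) (by
      rw [Finset.sum_eq_single i]
      · simp [hzK, hi]
      · intro b _ hb; simp [hb]
      · simp)
    obtain ⟨j, hj⟩ : ∃ j : Fin (m + r + 2 + 1), j ≠ i := exists_ne i
    have h2 := h1 j i
    simp [hj] at h2
  have hb := height_bound δ z (RatFunc k) hz E hE w hgood hz0 hcop
  set A := ∑ j, nD (w j) with hAdef
  set R := (radical (∏ i, z i)).natDegree +
        if ∀ i j, (z i).natDegree = (z j).natDegree then 0 else 1 with hR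
  obtain ⟨i1, hi1⟩ := hnc
  have h1 := hb i1
  have h2 := hb l
  have hR2 : 2 ≤ R := by
    by_contra hlt
    rw [not_le] at hlt
    have : A * R ≤ A * 2 := Nat.mul_le_mul_left _ hlt.le
    omega
  obtain ⟨t, ht⟩ := Nat.exists_eq_add_of_le hR2
  rw [ht] at h2 ⊢
  have h3 : (z l).natDegree ≤ A * t := by
    rw [mul_add] at h2
    omega
  have h4 : 2 * A * t ≤ (m + 1) * (m + 2) * t := Nat.mul_le_mul_right _ hA
  rw [mul_add]
  nlinarith

end

end Pool.Agent.H4Abcd
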