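import Pool.Agent.H4Abcd.Core

/-!
The bounds for the determinant at the finite places and at infinity.
-/

namespace Pool.Agent.H4Abcd

open Submodule Module Polynomial

universe u v w

section Det

variable {R : Type u} [CommRing R] {N : ℕ}

theorem prod_dvd_det {p : ℕ} (M : Matrix (Fin p) (Fin p) R) (c : Fin p → R)
    (h : ∀ j i, c i ∣ M j i) : ∏ i, c i ∣ M.det := by
  choose B hB using h
  have : M = Matrix.of fun j i => c i * Matrix.of B j i := by
    ext j i
    rw [Matrix.of_apply, Matrix.of_apply, hB]
  rw [this, Matrix.det_mul_row]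
  exact dvd_mul_right _ _

theorem natDegree_det_le {p : ℕ} (M : Matrix (Fin p) (Fin p) R[X]) (β : Fin p → ℕ)
    (h : ∀ j i, (M j i).natDegree ≤ β i) : M.det.natDegree ≤ ∑ i, β i := by
  rw [Matrix.det_apply]
  apply natDegree_sum_le_of_forall_le
  intro σ _
  refine (natDegree_smul_le _ _).trans ?_
  refine (natDegree_prod_le _ _).trans ?_
  exact Finset.sum_le_sum fun i _ => h _ _

end Det

section

variable {k : Type u} [Field k] [Algebra ℚ k] {ι : Type v} {N : ℕ}
variable (δ : ι → Derivation ℚ k k) (z : Fin (N + 1) → k[X])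

theorem dvd_frameT (π : k[X]) (ξ : ι → k[X])
    (hξ : ∀ b, π ∣ coeffDer (δ b) π - ξ b * derivative π) (e : Fin (N + 1) → ℕ)
    (he : ∀ i, π ^ e i ∣ z i) (w : List (Option ι)) (i : Fin (N + 1)) :
    π ^ e i ∣ frameT δ z π 0 ξ w i := by
  induction w generalizing i with
  | nil => exact he i
  | cons l w ih =>
    obtain ⟨f, hf⟩ := ih i
    cases l with
    | none =>
      rw [frameT_none, hf, Pi.zero_apply, zero_mul, add_zero, derivative_mul, derivative_pow]
      rcases hei : e i with _ | m
      · simp
      · rw [Nat.add_sub_cancel]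
        refine ⟨C ((m + 1 : ℕ) : k) * derivative π * f + π * derivative f, ?_⟩
        ring
    | some b =>
      obtain ⟨q, hq⟩ := hξ b
      rw [frameT_some, hf, Derivation.leibniz, Derivation.leibniz_pow, derivative_mul, derivative_pow]
      rcases hei : e i with _ | m
      · simp
      · rw [Nat.add_sub_cancel]
        refine ⟨coeffDer (δ b) f - ξ b * derivative f + C ((m + 1 : ℕ) : k) * q * f, ?_⟩
        simp only [smul_eq_mul, nsmul_eq_mul, C_eq_natCast]
        have h1 : coeffDer (δ b) π = ξ b * derivative π + π * q := by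
          rw [← hq]; ring
        rw [h1]
        ring

theorem exists_xi (π : k[X]) (hπ : Irreducible π) :
    ∃ ξ : ι → k[X], ∀ b, π ∣ coeffDer (δ b) π - ξ b * derivative π := by
  have : CharZero k := algebraRat.charZero k
  have hcop : IsCoprime π (derivative π) := (separable_def π).1 hπ.separable
  obtain ⟨a, c, hac⟩ := hcop
  refine ⟨fun b => coeffDer (δ b) π * c, fun b => ⟨coeffDer (δ b) π * a, ?_⟩⟩
  have : coeffDer (δ b) π = coeffDer (δ b) π * (a * π + c * derivative π) := by
    rw [hac, mul_one]
  calc coeffDer (δ b) π - coeffDer (δ b) π * c * derivative π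
      = coeffDer (δ b) π * (a * π + c * derivative π) -
        coeffDer (δ b) π * c * derivative π := by rw [← this]
    _ = π * (coeffDer (δ b) π * a) := by ring

variable (K : Type w) [Field K] [Algebra ℚ K] [Algebra k[X] K] [IsFractionRing k[X] K]

theorem local_dvd (hz : ∑ i, z i = 0) (E : Option ι → Derivation ℚ K K)
    (hE : ∀ l f, E l (algebraMap k[X] K f) = algebraMap k[X] K (polyDer δ l f))
    (w : Fin N → List (Option ι)) (hw : GoodFamily δ z K w) (π : k[X]) (hπ : Irreducible π)
    (e : Fin (N + 1) → ℕ) (he : ∀ i, π ^ e i ∣ z i) (l : Fin (N + 1)) (hl : e l = 0) :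
    π ^ (∑ i, e i) ∣ π ^ (∑ j, nD (w j)) * Delta δ z w := by
  obtain ⟨ξ, hξ⟩ := exists_xi δ π hπ
  have h1 := det_frame δ z K E hE w hw π 0 ξ (Pi.single l 1)
  rw [det_single_eq δ z hz w l] at h1
  rw [← h1, ← Finset.prod_pow_eq_pow_sum]
  apply prod_dvd_det
  intro j i
  refine Fin.cases ?_ (fun j => ?_) j
  · rw [mat_zero]
    by_cases hi : i = l
    · subst hi; rw [hl, pow_zero]; exact one_dvd _
    · rw [Pi.single_eq_of_ne hi]; exact dvd_zero _
  · rw [mat_succ]
    exact dvd_frameT δ z π ξ hξ e he (w j) i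

theorem coeff_actP_eq_zero (w : List (Option ι)) (i : Fin (N + 1)) (t : ℕ)
    (ht : (z i).natDegree < t + nD w) : (actP δ z w i).coeff t = 0 := by
  induction w generalizing t with
  | nil =>
    refine coeff_eq_zero_of_natDegree_lt ?_
    change (z i).natDegree < t
    simpa [nD] using ht
  | cons l w ih =>
    cases l with
    | none =>
      rw [actP_cons, polyDer_none, coeff_derivative, ih, zero_mul]
      rw [nD] at ht
      omega
    | some b =>
      rw [actP_cons, polyDer_some, coeff_coeffDer, ih, map_zero]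
      exact ht

/-- The twist used at infinity. -/
noncomputable def tw (h : ℕ) (w : List (Option ι)) : k[X] := -C ((h : k) - (nD w : k))

theorem coeff_twist_eq_zero (h : ℕ) (hz : ∀ i, (z i).natDegree = h) (w : List (Option ι))
    (i : Fin (N + 1)) (t : ℕ) (ht : h < t + nD w) :
    (frameT δ z X (tw h) 0 w i).coeff t = 0 := by
  induction w generalizing t with
  | nil =>
    refine coeff_eq_zero_of_natDegree_lt ?_
    change (z i).natDegree < t
    rw [hz]
    simpa [nD] using ht
  | cons l w ih =>
    cases l with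
    | none =>
      rw [nD] at ht
      rw [frameT_none, tw, neg_mul, coeff_add, coeff_neg, coeff_C_mul]
      have h1 : (X * derivative (frameT δ z X (tw h) 0 w i)).coeff t =
          (t : k) * (frameT δ z X (tw h) 0 w i).coeff t := by
        cases t with
        | zero => simp
        | succ t =>
          rw [coeff_X_mul, coeff_derivative]
          push_cast
          ring
      rw [h1]
      by_cases h2 : h < t + nD w
      · rw [ih t h2]; ring
      · have h3 : h = t + nD w := by omega
        have h4 : (h : k) = (t : k) + (nD w : k) := by rw [h3]; push_cast; ring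
        rw [h4]; ring
    | some b =>
      rw [frameT_some, coeff_sub, coeff_coeffDer, ih t ht]
      simp

omit [Algebra ℚ k] in
theorem natDegree_X_pow_mul_le (f : k[X]) (a d : ℕ) (h : ∀ t, d < t + a → f.coeff t = 0) :
    (X ^ a * f).natDegree ≤ d := by
  rw [natDegree_le_iff_coeff_eq_zero]
  intro t ht
  rw [coeff_X_pow_mul']
  split_ifs with h1
  · apply h; omega
  · rfl

omit [Algebra ℚ k] in
/-- Multiplying the rows by powers of `X`. -/
theorem degree_bound (u : Fin (N + 1) → k[X]) (v : Fin N → Fin (N + 1) → k[X]) (c : ℕ)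
    (a : Fin N → ℕ) (β : Fin (N + 1) → ℕ) (hdet : (mat u v).det ≠ 0)
    (h0 : ∀ i, (X ^ c * u i).natDegree ≤ β i)
    (h1 : ∀ j i, (X ^ a j * v j i).natDegree ≤ β i) :
    c + ∑ j, a j + (mat u v).det.natDegree ≤ ∑ i, β i := by
  let r : Fin (N + 1) → ℕ := Fin.cons c a
  have h2 : (Matrix.of fun j i => (X : k[X]) ^ r j * mat u v j i).det =
      X ^ (c + ∑ j, a j) * (mat u v).det := by
    rw [Matrix.det_mul_column, Finset.prod_pow_eq_pow_sum, Fin.sum_univ_succ]
    simp [r]
  have h3 := natDegree_det_le (Matrix.of fun j i => (X : k[X]) ^ r j * mat u v j i) β (by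
    intro j i
    refine Fin.cases ?_ (fun j => ?_) j
    · exact h0 i
    · exact h1 j i)
  rw [h2, natDegree_mul (pow_ne_zero _ X_ne_zero) hdet, natDegree_X_pow] at h3
  exact h3

omit [Algebra ℚ K] [IsFractionRing k[X] K] in
theorem natDegree_Delta_le (hz : ∑ i, z i = 0) (w : Fin N → List (Option ι))
    (hw : GoodFamily δ z K w) (l : Fin (N + 1)) :
    (z l).natDegree + ∑ j, nD (w j) + (Delta δ z w).natDegree ≤ ∑ i, (z i).natDegree := by
  have hne := Delta_ne_zero δ z K hz w hw
  rw [← det_single_eq δ z hz w l] at hne ⊢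
  apply degree_bound _ _ _ _ _ hne
  · intro i
    by_cases hi : i = l
    · subst hi; simp
    · simp [Pi.single_eq_of_ne hi]
  · intro j i
    exact natDegree_X_pow_mul_le _ _ _ fun t ht => coeff_actP_eq_zero δ z (w j) i t ht

theorem natDegree_Delta_le' (hz : ∑ i, z i = 0) (E : Option ι → Derivation ℚ K K)
    (hE : ∀ l f, E l (algebraMap k[X] K f) = algebraMap k[X] K (polyDer δ l f))
    (w : Fin N → List (Option ι)) (hw : GoodFamily δ z K w) (h : ℕ)
    (hzh : ∀ i, (z i).natDegree = h) :
    h + 2 * ∑ j, nD (w j) + (Delta δ z w).natDegree ≤ ∑ i, (z i).natDegree := by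
  have hne := Delta_ne_zero δ z K hz w hw
  have h1 := det_frame δ z K E hE w hw X (tw h) 0 (Pi.single 0 1)
  rw [det_single_eq δ z hz w 0] at h1
  have h2 : (mat (Pi.single 0 1) fun j => frameT δ z X (tw h) 0 (w j)).det ≠ 0 := by
    rw [h1]; exact mul_ne_zero (pow_ne_zero _ X_ne_zero) hne
  have h3 := degree_bound (Pi.single 0 1) (fun j => frameT δ z X (tw h) 0 (w j)) h
    (fun j => nD (w j)) (fun i => (z i).natDegree) h2 (by
      intro i
      by_cases hi : i = 0
      · subst hi; simp [hzh]
      · simp [Pi.single_eq_of_ne hi]) (by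
      intro j i
      rw [hzh]
      exact natDegree_X_pow_mul_le _ _ _ fun t ht =>
        coeff_twist_eq_zero δ z h hzh (w j) i t ht)
  rw [h1, natDegree_mul (pow_ne_zero _ X_ne_zero) hne, natDegree_X_pow] at h3
  omega

end

end Pool.Agent.H4Abcd
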