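import Pool.Agent.H4Abcd.Count

/-!
Ranks of the spaces spanned by words.
-/

namespace Pool.Agent.H4Abcd

open Submodule Module

universe v w

section

variable {ι : Type v} {K : Type w} [Field K] [Algebra ℚ K] {N : ℕ}
variable (E : Option ι → Derivation ℚ K K) (z : Fin (N + 1) → K)

theorem sum_act (hz : ∑ i, z i = 0) (w : List (Option ι)) : ∑ i, act E z w i = 0 := by
  induction w with
  | nil => exact hz
  | cons l w ih =>
    change ∑ i, E l (act E z w i) = 0
    rw [← map_sum, ih, map_zero]

theorem ann_der (c : Fin (N + 1) → K) (hc : ∀ w, ∑ i, c i * act E z w i = 0) (l : Option ι)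
    (w : List (Option ι)) : ∑ i, E l (c i) * act E z w i = 0 := by
  have h1 := congrArg (E l) (hc w)
  rw [map_sum, map_zero] at h1
  have h2 := hc (l :: w)
  simp only [Derivation.leibniz, smul_eq_mul, Finset.sum_add_distrib] at h1
  change ∑ i, c i * E l (act E z w i) = 0 at h2
  rw [h2, zero_add] at h1
  rw [← h1]
  exact Finset.sum_congr rfl fun i _ => mul_comm _ _

theorem ann_eq_zero (halg : ∀ f : K, (∀ l, E l f = 0) → IsAlgebraic ℚ f)
    (hrel : ∀ c : Fin (N + 1) → K, (∀ i, IsAlgebraic ℚ (c i)) → ∑ i, c i * z i = 0 →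
      ∀ i j, c i = c j) (m : ℕ) :
    ∀ c : Fin (N + 1) → K, {i | c i ≠ 0}.ncard = m → c (Fin.last N) = 0 →
      (∀ w, ∑ i, c i * act E z w i = 0) → c = 0 := by
  induction m using Nat.strong_induction_on with
  | _ m ih =>
    intro c hm hlast hc
    by_contra hne
    obtain ⟨i0, hi0⟩ : ∃ i, c i ≠ 0 := by
      by_contra h
      push Not at h
      exact hne (funext h)
    set c1 : Fin (N + 1) → K := fun i => (c i0)⁻¹ * c i with hc1
    have hc1ann : ∀ w, ∑ i, c1 i * act E z w i = 0 := by
      intro w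
      have : ∑ i, c1 i * act E z w i = (c i0)⁻¹ * ∑ i, c i * act E z w i := by
        rw [Finset.mul_sum]
        exact Finset.sum_congr rfl fun i _ => by rw [hc1]; ring
      rw [this, hc w, mul_zero]
    have hder : ∀ l, (fun i => E l (c1 i)) = 0 := by
      intro l
      refine ih _ ?_ _ rfl ?_ (ann_der E z c1 hc1ann l)
      · rw [← hm]
        apply Set.ncard_lt_ncard _ (Set.toFinite _)
        refine ⟨fun i hi => ?_, fun h => ?_⟩
        · intro h0
          apply hi
          simp [hc1, h0]
        · have := h hi0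
          apply this
          simp [hc1, hi0]
      · simp [hc1, hlast]
    have halg1 : ∀ i, IsAlgebraic ℚ (c1 i) := fun i => halg _ fun l => congrFun (hder l) i
    have := hrel c1 halg1 (hc1ann []) i0 (Fin.last N)
    simp [hc1, hi0, hlast] at this

theorem ann_const (hz : ∑ i, z i = 0) (halg : ∀ f : K, (∀ l, E l f = 0) → IsAlgebraic ℚ f)
    (hrel : ∀ c : Fin (N + 1) → K, (∀ i, IsAlgebraic ℚ (c i)) → ∑ i, c i * z i = 0 →
      ∀ i j, c i = c j)
    (c : Fin (N + 1) → K) (hc : ∀ w, ∑ i, c i * act E z w i = 0) (i : Fin (N + 1)) :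
    c i = c (Fin.last N) := by
  have h := ann_eq_zero E z halg hrel _ (fun i => c i - c (Fin.last N)) rfl (sub_self _) (by
    intro w
    simp only [sub_mul, Finset.sum_sub_distrib, ← Finset.mul_sum]
    rw [hc w, sum_act E z hz w, mul_zero, sub_zero])
  exact sub_eq_zero.1 (congrFun h i)

theorem finrank_univ (hz : ∑ i, z i = 0) (halg : ∀ f : K, (∀ l, E l f = 0) → IsAlgebraic ℚ f)
    (hrel : ∀ c : Fin (N + 1) → K, (∀ i, IsAlgebraic ℚ (c i)) → ∑ i, c i * z i = 0 →
      ∀ i j, c i = c j) :
    finrank K (spanW E z Set.univ) = N := by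
  let σ : (Fin (N + 1) → K) →ₗ[K] K := ∑ i, LinearMap.proj i
  have hσ : ∀ v, σ v = ∑ i, v i := by intro v; simp [σ]
  have h1 : spanW E z Set.univ = LinearMap.ker σ := by
    apply le_antisymm
    · rw [spanW, span_le]
      rintro _ ⟨u, -, rfl⟩
      change σ _ = 0
      rw [hσ, sum_act E z hz u]
    · intro v hv
      by_contra hvW
      obtain ⟨f, hfv, hf⟩ := exists_le_ker_of_notMem hvW
      have hf2 : ∀ x, f x = ∑ i, f (Pi.single i 1) * x i := by
        intro x
        conv_lhs => rw [← Finset.univ_sum_single x, map_sum]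
        refine Finset.sum_congr rfl fun i _ => ?_
        have : Pi.single i (x i) = x i • (Pi.single i (1 : K) : Fin (N + 1) → K) := by
          rw [← Pi.single_smul, smul_eq_mul, mul_one]
        rw [this, map_smul, smul_eq_mul, mul_comm]
      have hc := ann_const E z hz halg hrel (fun i => f (Pi.single i 1)) (by
        intro w
        rw [← hf2]
        exact hf (act_mem_spanW E z (Set.mem_univ w)))
      apply hfv
      rw [hf2]
      simp only [hc]
      rw [← Finset.mul_sum, ← hσ, hv, mul_zero]
  rw [h1]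
  have h2 := σ.finrank_range_add_finrank_ker
  have h3 : LinearMap.range σ = ⊤ := by
    rw [LinearMap.range_eq_top]
    intro y
    refine ⟨Pi.single 0 y, ?_⟩
    rw [hσ]; simp
  rw [h3, finrank_top, finrank_self, finrank_fin_fun] at h2
  omega

theorem finrank_one {r : ℕ} (hlast : z (Fin.last N) ≠ 0) (idx : Fin (r + 1) → Fin (N + 1))
    (hc : ∀ c : Fin (r + 1) → K,
      (∀ l, ∑ j, c j * E l (z (idx j) / z (Fin.last N)) = 0) → c = 0) :
    r + 2 ≤ finrank K (spanW E z (wle 1)) := by
  set x : Fin (r + 1) → K := fun j => z (idx j) / z (Fin.last N) with hx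
  let Φ : (Fin (N + 1) → K) →ₗ[K] (Fin (r + 1) → K) :=
    LinearMap.pi fun j => (z (Fin.last N))⁻¹ • (LinearMap.proj (idx j) -
      x j • LinearMap.proj (Fin.last N))
  have hΦ : ∀ v j, Φ v j = (z (Fin.last N))⁻¹ * (v (idx j) - x j * v (Fin.last N)) := by
    intro v j; simp [Φ]
  have hΦz : Φ z = 0 := by
    funext j
    rw [hΦ, hx]
    field_simp
    simp
  have hΦl : ∀ l j, Φ (act E z [l]) j = E l (x j) := by
    intro l j
    rw [hΦ]
    have h1 : z (idx j) = x j * z (Fin.last N) := by rw [hx]; field_simp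
    change (z (Fin.last N))⁻¹ * (E l (z (idx j)) - x j * E l (z (Fin.last N))) = E l (x j)
    rw [h1, Derivation.leibniz, smul_eq_mul, smul_eq_mul]
    field_simp
    ring
  let W := spanW E z (wle 1)
  let Ψ := Φ.domRestrict W
  have hrange : LinearMap.range Ψ = ⊤ := by
    by_contra hne
    obtain ⟨f, hf0, hf⟩ := exists_le_ker_of_lt_top _ (lt_top_iff_ne_top.2 hne)
    apply hf0
    have hf2 : ∀ y, f y = ∑ j, f (Pi.single j 1) * y j := by
      intro y
      conv_lhs => rw [← Finset.univ_sum_single y, map_sum]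
      refine Finset.sum_congr rfl fun i _ => ?_
      have : Pi.single i (y i) = y i • (Pi.single i (1 : K) : Fin (r + 1) → K) := by
        rw [← Pi.single_smul, smul_eq_mul, mul_one]
      rw [this, map_smul, smul_eq_mul, mul_comm]
    have h0 := hc (fun j => f (Pi.single j 1)) (by
      intro l
      have h1 : f (Φ (act E z [l])) = 0 :=
        hf ⟨⟨act E z [l], act_mem_spanW E z (by simp [wle])⟩, rfl⟩
      rw [hf2] at h1
      simp only [hΦl] at h1
      exact h1)
    ext j
    have := congrFun h0 j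
    simpa using this
  have h2 := Ψ.finrank_range_add_finrank_ker
  rw [hrange, finrank_top, finrank_fin_fun] at h2
  have h3 : 0 < finrank K (LinearMap.ker Ψ) := by
    have hz0 : z ∈ W := act_mem_spanW E z (w := []) (by simp [wle])
    have hker : (⟨z, hz0⟩ : W) ∈ LinearMap.ker Ψ := hΦz
    apply Submodule.one_le_finrank_iff.2
    intro hbot
    rw [hbot, mem_bot] at hker
    have h4 : z = 0 := congrArg Subtype.val hker
    apply hlast
    rw [h4]; rfl
  change r + 2 ≤ finrank K W
  omega

end

end Pool.Agent.H4Abcd
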