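import Pool.Agent.H4Abcd.Kaehler

/-!
Derivations of `k[X]` and of its field of fractions attached to a transcendence basis of `k`.
-/

namespace Pool.Agent.H4Abcd

open KaehlerDifferential Polynomial

universe u v w

section

variable {k : Type u} [Field k] [Algebra ℚ k] {ι : Type v}

/-- The derivation of `k[X]` acting on coefficients by a derivation of `k`. -/
noncomputable def coeffDer (d : Derivation ℚ k k) : Derivation ℚ k[X] k[X] :=
  PolynomialModule.equivPolynomialSelf.compDer d.mapCoeffs

theorem coeff_coeffDer (d : Derivation ℚ k k) (f : k[X]) (j : ℕ) :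
    (coeffDer d f).coeff j = d (f.coeff j) := rfl

theorem coeffDer_X (d : Derivation ℚ k k) : coeffDer d (X : k[X]) = 0 := by
  ext j
  rw [coeff_coeffDer, coeff_X]
  split_ifs <;> simp

theorem coeffDer_C (d : Derivation ℚ k k) (a : k) : coeffDer d (C a) = C (d a) := by
  ext j
  rw [coeff_coeffDer, coeff_C, coeff_C]
  split_ifs <;> simp

/-- The derivations of `k[X]`: `none` is the derivative, `some b` acts on coefficients. -/
noncomputable def polyDer (δ : ι → Derivation ℚ k k) : Option ι → Derivation ℚ k[X] k[X]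
  | none => (derivative' (R := k)).restrictScalars ℚ
  | some b => coeffDer (δ b)

theorem polyDer_none (δ : ι → Derivation ℚ k k) (f : k[X]) :
    polyDer δ none f = derivative f := rfl

theorem polyDer_some (δ : ι → Derivation ℚ k k) (b : ι) (f : k[X]) :
    polyDer δ (some b) f = coeffDer (δ b) f := rfl

variable {K : Type w} [Field K] [Algebra ℚ K] [Algebra k[X] K] [IsScalarTower ℚ k[X] K]
  [IsFractionRing k[X] K]

/-- The generators of the differentials of `K`. -/
noncomputable def gen (x : ι → k) : Option ι → K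
  | none => algebraMap k[X] K X
  | some b => algebraMap k[X] K (C (x b))

theorem span_gen (x : ι → k) (hx : IsTranscendenceBasis ℚ x) :
    Submodule.span K (Set.range fun l => D ℚ K (gen (K := K) x l)) = ⊤ := by
  rw [eq_top_iff, ← span_range_map_derivation_of_isLocalization ℚ k[X] K (nonZeroDivisors k[X]),
    Submodule.span_le]
  rintro _ ⟨f, rfl⟩
  change map ℚ ℚ k[X] K (D ℚ k[X] f) ∈ _
  rw [map_D]
  set S := Submodule.span K (Set.range fun l => D ℚ K (gen (K := K) x l)) with hS
  have hX : D ℚ K (algebraMap k[X] K X) ∈ S := Submodule.subset_span ⟨none, rfl⟩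
  have hB : ∀ b, D ℚ K (algebraMap k[X] K (C (x b))) ∈ S := fun b =>
    Submodule.subset_span ⟨some b, rfl⟩
  have hC : ∀ a : k, D ℚ K (algebraMap k[X] K (C a)) ∈ S := by
    intro a
    obtain ⟨bas, hbas⟩ := exists_basis_of_isTranscendenceBasis x hx
    let algkK : Algebra k K := ((algebraMap k[X] K).comp C).toAlgebra
    have : IsScalarTower ℚ k K := by
      refine IsScalarTower.of_algebraMap_eq fun q => ?_
      rw [IsScalarTower.algebraMap_apply ℚ k[X] K]
      rfl
    have h1 : D ℚ K (algebraMap k K a) = map ℚ ℚ k K (D ℚ k a) := (map_D ℚ ℚ k K a).symm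
    change D ℚ K (algebraMap k K a) ∈ S
    rw [h1]
    have h2 : D ℚ k a ∈ Submodule.span k (Set.range bas) := by
      rw [bas.span_eq]; trivial
    refine Submodule.span_induction (p := fun η _ => map ℚ ℚ k K η ∈ S) ?_ ?_ ?_ ?_ h2
    · rintro _ ⟨b, rfl⟩
      rw [hbas b, map_D]
      exact hB b
    · rw [map_zero]; exact S.zero_mem
    · intro y z _ _ hy hz
      rw [map_add]; exact S.add_mem hy hz
    · intro c y _ hy
      rw [map_smul, algebra_compatible_smul K c]
      exact S.smul_mem _ hy
  induction f using Polynomial.induction_on' with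
  | add p q hp hq =>
    rw [map_add, map_add]
    exact S.add_mem hp hq
  | monomial n a =>
    rw [← C_mul_X_pow_eq_monomial, map_mul, map_pow, Derivation.leibniz, Derivation.leibniz_pow]
    exact S.add_mem (S.smul_mem _ (S.smul_of_tower_mem _ (S.smul_mem _ hX))) (S.smul_mem _ (hC a))

theorem eq_zero_of_dual (x : ι → k) (hx : IsTranscendenceBasis ℚ x)
    (δ : ι → Derivation ℚ k k) (h1 : ∀ i, δ i (x i) = 1) (h2 : ∀ i j, i ≠ j → δ i (x j) = 0)
    (E : Option ι → Derivation ℚ K K)
    (hE : ∀ l f, E l (algebraMap k[X] K f) = algebraMap k[X] K (polyDer δ l f))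
    (η : Ω[K⁄ℚ]) (hη : ∀ l, (E l).liftKaehlerDifferential η = 0) : η = 0 := by
  classical
  have hmem : η ∈ Submodule.span K (Set.range fun l => D ℚ K (gen (K := K) x l)) := by
    rw [span_gen x hx]; trivial
  rw [Finsupp.mem_span_range_iff_exists_finsupp] at hmem
  obtain ⟨a, rfl⟩ := hmem
  have hg : ∀ l l', E l (gen (K := K) x l') = if l = l' then 1 else 0 := by
    rintro (_ | i) (_ | j)
    · simp [gen, hE, polyDer_none]
    · simp [gen, hE, polyDer_none]
    · simp [gen, hE, polyDer_some, coeffDer_X]
    · simp only [gen, hE, polyDer_some, coeffDer_C, Option.some.injEq]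
      split_ifs with h
      · subst h; simp [h1]
      · rw [h2 i j h]; simp
  have ha : a = 0 := by
    ext l
    have := hη l
    rw [map_finsuppSum] at this
    simp only [map_smul, Derivation.liftKaehlerDifferential_comp_D, hg, smul_eq_mul] at this
    rw [Finsupp.sum, Finset.sum_congr rfl (g := fun l' => if l = l' then a l' else 0)] at this
    · rw [Finset.sum_ite_eq] at this
      split_ifs at this with hl
      · exact this
      · exact Finsupp.notMem_support_iff.1 hl
    · intro l' _
      split_ifs <;> simp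
  rw [ha, Finsupp.sum_zero_index]

variable (k K)

/-- The system of derivations used in the proof. -/
theorem exists_letters : ∃ (ι : Type u) (δ : ι → Derivation ℚ k k)
    (E : Option ι → Derivation ℚ K K),
    (∀ l f, E l (algebraMap k[X] K f) = algebraMap k[X] K (polyDer δ l f)) ∧
    (∀ η : Ω[K⁄ℚ], (∀ l, (E l).liftKaehlerDifferential η = 0) → η = 0) := by
  obtain ⟨ι, x, hx⟩ := exists_isTranscendenceBasis' ℚ k
  obtain ⟨δ, h1, h2⟩ := exists_dual_derivations x hx
  choose E hE using fun l : Option ι => exists_extend (K := K) (polyDer δ l)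
  exact ⟨ι, δ, E, hE, eq_zero_of_dual x hx δ h1 h2 E hE⟩

variable {k K}

theorem isAlgebraic_of_forall {Λ : Type*} (E : Λ → Derivation ℚ K K)
    (hE : ∀ η : Ω[K⁄ℚ], (∀ l, (E l).liftKaehlerDifferential η = 0) → η = 0)
    (f : K) (hf : ∀ l, E l f = 0) : IsAlgebraic ℚ f := by
  by_contra h
  have h1 : AlgebraicIndependent ℚ (fun _ : Unit => f) := by
    rw [algebraicIndependent_unique_type_iff]
    exact h
  have h2 := linearIndependent_D_of_algebraicIndependent _ h1
  have h3 : D ℚ K f = 0 := by
    apply hE
    intro l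
    rw [Derivation.liftKaehlerDifferential_comp_D]
    exact hf l
  exact h2.ne_zero () h3

theorem coeff_eq_zero_of_forall {Λ : Type*} (E : Λ → Derivation ℚ K K)
    (hE : ∀ η : Ω[K⁄ℚ], (∀ l, (E l).liftKaehlerDifferential η = 0) → η = 0)
    {p : ℕ} (x : Fin p → K) (hx : AlgebraicIndependent ℚ x) (c : Fin p → K)
    (hc : ∀ l, ∑ j, c j * E l (x j) = 0) : c = 0 := by
  have h2 := linearIndependent_D_of_algebraicIndependent _ hx
  have h3 : ∑ j, c j • D ℚ K (x j) = 0 := by
    apply hE
    intro l
    rw [map_sum, ← hc l]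
    refine Finset.sum_congr rfl fun j _ => ?_
    rw [map_smul, Derivation.liftKaehlerDifferential_comp_D, smul_eq_mul]
  funext j
  exact Fintype.linearIndependent_iff.1 h2 c h3 j

end

end Pool.Agent.H4Abcd
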