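import Pool.Agent.H4Abcd.RatK

/-!
Words in derivations acting on a vector; change of frame.
-/

namespace Pool.Agent.H4Abcd

open Submodule

universe v w

section

variable {ι : Type v} {K : Type w} [Field K] [Algebra ℚ K] {n : ℕ}

/-- Number of letters `none` in a word. -/
def nD : List (Option ι) → ℕ
  | [] => 0
  | none :: w => nD w + 1
  | some _ :: w => nD w

/-- Number of letters different from `none` in a word. -/
def nO : List (Option ι) → ℕ
  | [] => 0
  | none :: w => nO w
  | some _ :: w => nO w + 1

theorem length_eq (w : List (Option ι)) : w.length = nD w + nO w := by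
  induction w with
  | nil => rfl
  | cons l w ih =>
    cases l <;> simp only [List.length_cons, nD, nO, ih] <;> omega

theorem nD_le_length (w : List (Option ι)) : nD w ≤ w.length := by
  rw [length_eq]; omega

/-- The level of a word. -/
def lvl (w : List (Option ι)) : ℕ ×ₗ ℕ := toLex (w.length, nO w)

/-- The action of a word on the vector `z`. -/
def act (E : Option ι → Derivation ℚ K K) (z : Fin n → K) : List (Option ι) → Fin n → K
  | [] => z
  | l :: w => fun i => E l (act E z w i)

/-- The span of the words in a set. -/
def spanW (E : Option ι → Derivation ℚ K K) (z : Fin n → K) (S : Set (List (Option ι))) :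
    Submodule K (Fin n → K) := span K (act E z '' S)

variable (E : Option ι → Derivation ℚ K K) (z : Fin n → K)

theorem spanW_mono {S T : Set (List (Option ι))} (h : S ⊆ T) : spanW E z S ≤ spanW E z T :=
  span_mono (Set.image_mono h)

theorem act_mem_spanW {S : Set (List (Option ι))} {w : List (Option ι)} (h : w ∈ S) :
    act E z w ∈ spanW E z S := subset_span ⟨w, h, rfl⟩

theorem der_mem (l : Option ι) {S T : Set (List (Option ι))} (hST : S ⊆ T)
    (hl : ∀ w ∈ S, l :: w ∈ T) {x : Fin n → K} (hx : x ∈ spanW E z S) :
    (fun i => E l (x i)) ∈ spanW E z T := by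
  refine span_induction (p := fun x _ => (fun i => E l (x i)) ∈ spanW E z T) ?_ ?_ ?_ ?_ hx
  · rintro _ ⟨w, hw, rfl⟩
    exact act_mem_spanW E z (hl w hw)
  · have : (fun i => E l ((0 : Fin n → K) i)) = 0 := by
      funext i; simp
    rw [this]; exact zero_mem _
  · intro x y _ _ hx hy
    have : (fun i => E l ((x + y) i)) = (fun i => E l (x i)) + fun i => E l (y i) := by
      funext i; simp
    rw [this]; exact add_mem hx hy
  · intro c x hx' hx
    have : (fun i => E l ((c • x) i)) = c • (fun i => E l (x i)) + (E l c) • x := by
      funext i; simp [mul_comm]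
    rw [this]
    exact add_mem (smul_mem _ _ hx) (smul_mem _ _ (spanW_mono E z hST hx'))

theorem lvl_lt_iff (u w : List (Option ι)) :
    lvl u < lvl w ↔ u.length < w.length ∨ (u.length = w.length ∧ nO u < nO w) := by
  rw [lvl, lvl, Prod.Lex.toLex_lt_toLex]

/-- Change of frame. -/
theorem frame (T : List (Option ι) → Fin n → K) (g : K) (s : List (Option ι) → K) (ξ : ι → K)
    (h0 : T [] = z)
    (h1 : ∀ w i, T (none :: w) i = g * E none (T w i) + s w * T w i)
    (h2 : ∀ b w i, T (some b :: w) i = E (some b) (T w i) - ξ b * E none (T w i))
    (w : List (Option ι)) :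
    T w - (g ^ nD w) • act E z w ∈ spanW E z {u | lvl u < lvl w} := by
  induction w with
  | nil => simp [h0, nD, act]
  | cons l w ih =>
    set e := T w - (g ^ nD w) • act E z w with he
    have hT : ∀ i, T w i = g ^ nD w * act E z w i + e i := by
      intro i; simp [he]
    have hw : act E z w ∈ spanW E z {u | lvl u < lvl (l :: w)} := by
      apply act_mem_spanW
      rw [Set.mem_ofPred_eq, lvl_lt_iff]
      left; simp
    have hlow : spanW E z {u | lvl u < lvl w} ≤ spanW E z {u | lvl u < lvl (l :: w)} := by
      apply spanW_mono
      intro u hu
      rw [Set.mem_ofPred_eq, lvl_lt_iff] at hu ⊢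
      simp only [List.length_cons]
      omega
    cases l with
    | none =>
      have hDe : (fun i => E none (e i)) ∈ spanW E z {u | lvl u < lvl (none :: w)} := by
        refine der_mem E z none ?_ ?_ ih
        · intro u hu
          rw [Set.mem_ofPred_eq, lvl_lt_iff] at hu ⊢
          simp only [List.length_cons]
          omega
        · intro u hu
          rw [Set.mem_ofPred_eq, lvl_lt_iff] at hu ⊢
          simp only [List.length_cons, nO]
          omega
      have : T (none :: w) - (g ^ nD (none :: w)) • act E z (none :: w) =
          (g * E none (g ^ nD w) + s w * g ^ nD w) • act E z w + g • (fun i => E none (e i))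
            + s w • e := by
        funext i
        simp only [Pi.sub_apply, Pi.add_apply, Pi.smul_apply, smul_eq_mul, h1, hT, nD, act,
          map_add, Derivation.leibniz]
        ring
      rw [this]
      exact add_mem (add_mem (smul_mem _ _ hw) (smul_mem _ _ hDe)) (smul_mem _ _ (hlow ih))
    | some b =>
      have hDe : (fun i => E none (e i)) ∈ spanW E z {u | lvl u < lvl (some b :: w)} := by
        refine der_mem E z none ?_ ?_ ih
        · intro u hu
          rw [Set.mem_ofPred_eq, lvl_lt_iff] at hu ⊢
          simp only [List.length_cons]
          omega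
        · intro u hu
          rw [Set.mem_ofPred_eq, lvl_lt_iff] at hu ⊢
          simp only [List.length_cons, nO]
          omega
      have hbe : (fun i => E (some b) (e i)) ∈ spanW E z {u | lvl u < lvl (some b :: w)} := by
        refine der_mem E z (some b) ?_ ?_ ih
        · intro u hu
          rw [Set.mem_ofPred_eq, lvl_lt_iff] at hu ⊢
          simp only [List.length_cons]
          omega
        · intro u hu
          rw [Set.mem_ofPred_eq, lvl_lt_iff] at hu ⊢
          simp only [List.length_cons, nO]
          omega
      have hD : act E z (none :: w) ∈ spanW E z {u | lvl u < lvl (some b :: w)} := by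
        apply act_mem_spanW
        rw [Set.mem_ofPred_eq, lvl_lt_iff]
        right
        refine ⟨rfl, ?_⟩
        change nO w < nO w + 1
        omega
      have : T (some b :: w) - (g ^ nD (some b :: w)) • act E z (some b :: w) =
          (E (some b) (g ^ nD w) - ξ b * E none (g ^ nD w)) • act E z w
            - (ξ b * g ^ nD w) • act E z (none :: w)
            + (fun i => E (some b) (e i)) - ξ b • (fun i => E none (e i)) := by
        funext i
        simp only [Pi.sub_apply, Pi.add_apply, Pi.smul_apply, smul_eq_mul, h2, hT, nD, act,
          map_add, Derivation.leibniz]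
        ring
      rw [this]
      exact sub_mem (add_mem (sub_mem (smul_mem _ _ hw) (smul_mem _ _ hD)) hbe)
        (smul_mem _ _ hDe)

end

end Pool.Agent.H4Abcd
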